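import Pool.Agent.Helper9.SR.CertGeneric0
import Pool.Agent.Helper45.SR.CertMap
import Pool.Agent.Helper67.SR.CertDescent
import Pool.Agent.Helper51.SR.D11

/-!
# SR2-D11': the two points and a common third point (MP_63a9db_ag)

`f_j := f(X + c_j, Y)`; `cert_generic0` gives a point `(t, y_j)` over `k⟦t⟧`, `cert_translate` and `cert_descent` give
certificates over finitely generated subalgebras `A_j ∋ t + c_j, y_j` of `k⟦t⟧`; the homs `k[X, Y]/(f) → A_j`,
`X ↦ t + c_j`, `Y ↦ y_j` are injective, so `common_point` and `cert_map` give a common point over `k`.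
-/

set_option autoImplicit false
open Polynomial Pool.Agent.Helper54.PW

namespace Pool.Agent.Helper54.SR

/-- evaluation of the translated polynomial -/
private theorem h50_evalEval_shift {k S : Type} [Field k] [CommRing S] (φ : k →+* S) (f : k[X][X])
    (c : k) (u y : S) :
    evalEval u y (fS φ (f.map (Polynomial.compRingHom (X + C c)))) =
      evalEval (u + φ c) y (fS φ f) := by
  unfold fS
  have h : ∀ (a : S) (g : k[X][X]), evalEval a y (g.map (Polynomial.mapRingHom φ)) =
      (Polynomial.eval₂RingHom (Polynomial.eval₂RingHom φ a) y) g := by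
    intro a g
    induction g using Polynomial.induction_on' with
    | add p q hp hq => rw [Polynomial.map_add, map_add, ← hp, ← hq]; simp [evalEval]
    | monomial m p =>
      simp [evalEval, Polynomial.eval₂_monomial, Polynomial.eval_map]
  rw [h, h]
  have e : (Polynomial.eval₂RingHom (Polynomial.eval₂RingHom φ u) y).comp
      (Polynomial.mapRingHom (Polynomial.compRingHom (X + C c))) =
      Polynomial.eval₂RingHom (Polynomial.eval₂RingHom φ (u + φ c)) y := by
    apply Polynomial.ringHom_ext'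
    · apply Polynomial.ringHom_ext'
      · ext x
        simp
      · simp
    · simp
  rw [← e]
  rfl

/-- the homomorphism given by a point over `k⟦t⟧` with transcendental first coordinate is injective -/
private theorem h50_inj {k : Type} [Field k] (f : k[X][X]) (hf : f.Monic) (hirr : Irreducible f)
    (c : k) (A : Subalgebra k (PowerSeries k)) (u : A)
    (hu : (u : PowerSeries k) = PowerSeries.X + algebraMap k (PowerSeries k) c)
    (j : AdjoinRoot f →ₐ[k] A) (hju : j (AdjoinRoot.of f X) = u) : Function.Injective j := by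
  have : IsDomain (AdjoinRoot f) := AdjoinRoot.isDomain_of_prime hirr.prime
  have hfin : Module.Finite k[X] (AdjoinRoot f) := hf.finite_adjoinRoot
  have hint : Algebra.IsIntegral k[X] (AdjoinRoot f) := Algebra.IsIntegral.of_finite _ _
  refine (RingHom.injective_iff_ker_eq_bot (j : AdjoinRoot f →+* A)).2 ?_
  apply Ideal.eq_bot_of_comap_eq_bot (R := k[X])
  rw [eq_bot_iff]
  intro p hp
  rw [Ideal.mem_comap, RingHom.mem_ker] at hp
  have h1 : ∀ q : k[X], ((j (AdjoinRoot.of f q) : A) : PowerSeries k) =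
      ((q.comp (X + C c) : k[X]) : PowerSeries k) := by
    intro q
    have e : (((A.val : A →+* PowerSeries k).comp (j : AdjoinRoot f →+* A)).comp (AdjoinRoot.of f)) =
        (Polynomial.coeToPowerSeries.ringHom (R := k)).comp (Polynomial.compRingHom (X + C c)) := by
      apply Polynomial.ringHom_ext'
      · ext1 x
        have h2 : j (AdjoinRoot.of f (C x)) = algebraMap k A x := j.commutes x
        simp [h2]
      · simp [hju, hu]
    exact congrArg (fun F : k[X] →+* PowerSeries k => F q) e
  have h2 := h1 p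
  have hp' : j (AdjoinRoot.of f p) = 0 := hp
  rw [hp'] at h2
  have h3 : (p.comp (X + C c) : k[X]) = 0 := by
    rw [← Polynomial.coe_eq_zero_iff (R := k)]
    rw [← h2]
    rfl
  have h4 : p = 0 := by
    have h5 := congrArg (fun q : k[X] => q.comp (X - C c)) h3
    simp only [Polynomial.comp_assoc] at h5
    simpa using h5
  rw [h4]
  exact Submodule.zero_mem _

theorem exists_common_cert {k : Type} [Field k] [IsAlgClosed k] {ℓ : ℕ} (hℓ0 : 0 < ℓ)
    (hℓ : (ℓ : k) ≠ 0) {n : ℕ} (f : k[X][X]) (hf : f.Monic) (hn : f.natDegree = n)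
    (hirr : Irreducible f) (c₁ c₂ : k) (η₁ η₂ : Fin n → k)
    (hη₁ : Function.Injective η₁) (hη₂ : Function.Injective η₂)
    (hf₁ : f.map (Polynomial.evalRingHom c₁) = ∏ i, (X - C (η₁ i)))
    (hf₂ : f.map (Polynomial.evalRingHom c₂) = ∏ i, (X - C (η₂ i))) (i₁ i₂ : Fin n) :
    ∃ u y : k, Cert ℓ (RingHom.id k) f c₁ (η₁ i₁) u y ∧
      Cert ℓ (RingHom.id k) f c₂ (η₂ i₂) u y := by
  have key : ∀ (c : k) (η : Fin n → k) (hη : Function.Injective η)
      (hfη : f.map (Polynomial.evalRingHom c) = ∏ i, (X - C (η i))) (i : Fin n),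
      ∃ (A : Subalgebra k (PowerSeries k)) (u y : A) (j : AdjoinRoot f →ₐ[k] A),
        Algebra.FiniteType k A ∧ Function.Injective j ∧ Cert ℓ (algebraMap k A) f c (η i) u y ∧
        j (AdjoinRoot.of f X) = u ∧ j (AdjoinRoot.root f) = y := by
    intro c η hη hfη i
    set f' := f.map (Polynomial.compRingHom (X + C c)) with hf'
    have hm' : f'.Monic := hf.map _
    have hn' : f'.natDegree = n := by
      rw [hf', hf.natDegree_map, hn]
    have h0 : f'.map (Polynomial.evalRingHom 0) = ∏ i, (X - C (η i)) := by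
      rw [hf', Polynomial.map_map, ← hfη]
      congr 1
      apply Polynomial.ringHom_ext'
      · ext x
        simp
      · simp
    obtain ⟨y, hy, hcert⟩ := cert_generic0 hℓ0 hℓ f' hm' hn' η hη h0 i
    have hc2 := cert_translate (algebraMap k (PowerSeries k)) f c (η i) PowerSeries.X y hcert
    rw [hf', h50_evalEval_shift] at hy
    obtain ⟨A, hu, hyA, hFG, hc3⟩ := cert_descent f c (η i) _ y hc2
    have hroot : Polynomial.eval₂ (Polynomial.eval₂RingHom (algebraMap k A)
        (⟨PowerSeries.X + algebraMap k (PowerSeries k) c, hu⟩ : A)) (⟨y, hyA⟩ : A) f = 0 := by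
      apply Subtype.ext
      have e : (A.val : A →+* PowerSeries k).comp (Polynomial.eval₂RingHom
          (Polynomial.eval₂RingHom (algebraMap k A)
          (⟨PowerSeries.X + algebraMap k (PowerSeries k) c, hu⟩ : A)) (⟨y, hyA⟩ : A)) =
          (Polynomial.evalEvalRingHom (PowerSeries.X + algebraMap k (PowerSeries k) c) y).comp
            (Polynomial.mapRingHom (Polynomial.mapRingHom (algebraMap k (PowerSeries k)))) := by
        apply Polynomial.ringHom_ext'
        · apply Polynomial.ringHom_ext'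
          · ext1 x
            simp
          · simp
        · simp
      have e2 := congrArg (fun F : k[X][X] →+* PowerSeries k => F f) e
      exact e2.trans hy
    let j : AdjoinRoot f →ₐ[k] A :=
      { AdjoinRoot.lift _ _ hroot with
        commutes' := fun x => by
          show AdjoinRoot.lift _ _ hroot (AdjoinRoot.of f (C x)) = _
          simp }
    refine ⟨A, ⟨PowerSeries.X + algebraMap k (PowerSeries k) c, hu⟩, ⟨y, hyA⟩, j, ?_, ?_, hc3,
      ?_, ?_⟩
    · exact Subalgebra.fg_iff_finiteType A |>.1 hFG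
    · refine h50_inj f hf hirr c A ⟨PowerSeries.X + algebraMap k (PowerSeries k) c, hu⟩ rfl j ?_
      show AdjoinRoot.lift _ _ hroot (AdjoinRoot.of f X) = _
      simp
    · show AdjoinRoot.lift _ _ hroot (AdjoinRoot.of f X) = _
      simp
    · show AdjoinRoot.lift _ _ hroot (AdjoinRoot.root f) = _
      simp
  obtain ⟨A₁, u₁, y₁, j₁, hA₁, hj₁, hc₁, hu₁, hy₁⟩ := key c₁ η₁ hη₁ hf₁ i₁
  obtain ⟨A₂, u₂, y₂, j₂, hA₂, hj₂, hc₂, hu₂, hy₂⟩ := key c₂ η₂ hη₂ hf₂ i₂
  have : IsDomain (AdjoinRoot f) := AdjoinRoot.isDomain_of_prime hirr.prime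
  obtain ⟨p₁, p₂, hp⟩ := common_point j₁ j₂ hj₁ hj₂
  have e1 := cert_map (algebraMap k A₁) (p₁ : A₁ →+* k) f c₁ (η₁ i₁) u₁ y₁ hc₁
  have e2 := cert_map (algebraMap k A₂) (p₂ : A₂ →+* k) f c₂ (η₂ i₂) u₂ y₂ hc₂
  have g1 : (p₁ : A₁ →+* k).comp (algebraMap k A₁) = RingHom.id k := by
    ext x
    exact p₁.commutes x
  have g2 : (p₂ : A₂ →+* k).comp (algebraMap k A₂) = RingHom.id k := by
    ext x
    exact p₂.commutes x
  rw [g1] at e1
  rw [g2] at e2
  refine ⟨p₁ u₁, p₁ y₁, e1, ?_⟩
  have hu : p₁ u₁ = p₂ u₂ := by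
    rw [← hu₁, ← hu₂]
    exact DFunLike.congr_fun hp _
  have hy : p₁ y₁ = p₂ y₂ := by
    rw [← hy₁, ← hy₂]
    exact DFunLike.congr_fun hp _
  rw [hu, hy]
  exact e2

end Pool.Agent.Helper54.SR
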